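import Pool.Agent.W873.RS.Stm

/-!
# GA3: crossing a level is at most as likely as crossing zero
-/

set_option autoImplicit false

open MeasureTheory ProbabilityTheory
open scoped ENNReal

namespace Pool.Agent.W243.RS.GA3

open Pool.Agent.W873.RS (sc)

theorem sc_iff (X w : ℝ) : sc (X + w) (X - w) ↔ X - |w| < 0 ∧ 0 ≤ X + |w| := by
  unfold sc
  rcases le_total 0 w with h | h
  · rw [abs_of_nonneg h]
    constructor
    · intro h1
      by_contra h2
      apply h1
      constructor
      · intro h3; linarith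
      · intro h3
        by_contra h4
        exact h2 ⟨h3, by linarith⟩
    · rintro ⟨h1, h2⟩ h3
      have := h3.2 h1
      linarith
  · rw [abs_of_nonpos h]
    constructor
    · intro h1
      by_contra h2
      apply h1
      constructor
      · intro h3
        by_contra h4
        exact h2 ⟨by linarith, by linarith⟩
      · intro h3; linarith
    · rintro ⟨h1, h2⟩ h3
      have := h3.1 (by linarith)
      linarith

theorem meas (f g : ℝ × ℝ → ℝ) (hf : Measurable f) (hg : Measurable g) :
    MeasurableSet {p : ℝ × ℝ | sc (f p) (g p)} := by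
  have h1 : MeasurableSet {p | f p < 0} := measurableSet_lt hf measurable_const
  have h2 : MeasurableSet {p | g p < 0} := measurableSet_lt hg measurable_const
  have h3 : {p : ℝ × ℝ | sc (f p) (g p)} =
      ({p | f p < 0} ∩ {p | g p < 0}ᶜ) ∪ ({p | f p < 0}ᶜ ∩ {p | g p < 0}) := by
    ext p
    simp only [sc, Set.mem_setOf_eq, Set.mem_union, Set.mem_inter_iff, Set.mem_compl_iff]
    tauto
  rw [h3]
  exact (h1.inter h2.compl).union (h1.compl.inter h2)

theorem one (hGA2 : Pool.Agent.W873.RS.GA2) (c m t : ℝ) (hc : 0 ≤ c) (hm : 0 ≤ m) :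
    gaussianReal 0 1 {x : ℝ | c * x - t - m < 0 ∧ 0 ≤ c * x - t + m} ≤
      gaussianReal 0 1 {x : ℝ | c * x - m < 0 ∧ 0 ≤ c * x + m} := by
  haveI : NullSingletonClass (gaussianReal 0 1) := nullSingletonClass_gaussianReal one_ne_zero
  rcases hc.eq_or_lt with h0 | h0
  · apply measure_mono
    rintro x ⟨h1, h2⟩
    rw [← h0] at h1 h2 ⊢
    simp only [Set.mem_setOf_eq]
    constructor <;> linarith
  · have e1 : {x : ℝ | c * x - t - m < 0 ∧ 0 ≤ c * x - t + m} =
        Set.Ico (t / c - m / c) (t / c + m / c) := by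
      ext x
      simp only [Set.mem_setOf_eq, Set.mem_Ico]
      rw [← sub_div, ← add_div, div_le_iff₀ h0, lt_div_iff₀ h0]
      constructor
      · rintro ⟨h1, h2⟩; constructor <;> linarith
      · rintro ⟨h1, h2⟩; constructor <;> linarith
    have e2 : {x : ℝ | c * x - m < 0 ∧ 0 ≤ c * x + m} = Set.Ico (-(m / c)) (m / c) := by
      ext x
      simp only [Set.mem_setOf_eq, Set.mem_Ico]
      rw [← neg_div, div_le_iff₀ h0, lt_div_iff₀ h0]
      constructor
      · rintro ⟨h1, h2⟩; constructor <;> linarith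
      · rintro ⟨h1, h2⟩; constructor <;> linarith
    rw [e1, e2, measure_congr Ico_ae_eq_Icc, measure_congr Ico_ae_eq_Icc]
    exact hGA2 _ _

theorem main (hGA2 : Pool.Agent.W873.RS.GA2) : Pool.Agent.W873.RS.GA3 := by
  intro c s t hc hs
  have hm1 := meas (fun p => c * p.1 + s * p.2 - t) (fun p => c * p.1 - s * p.2 - t)
    (by fun_prop) (by fun_prop)
  have hm2 := meas (fun p => c * p.1 + s * p.2) (fun p => c * p.1 - s * p.2)
    (by fun_prop) (by fun_prop)
  rw [Measure.prod_apply_symm hm1, Measure.prod_apply_symm hm2]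
  apply lintegral_mono
  intro y
  have h := one hGA2 c |s * y| t hc (abs_nonneg _)
  have e1 : (fun x : ℝ => (x, y)) ⁻¹'
      {p : ℝ × ℝ | sc (c * p.1 + s * p.2 - t) (c * p.1 - s * p.2 - t)} =
      {x : ℝ | c * x - t - |s * y| < 0 ∧ 0 ≤ c * x - t + |s * y|} := by
    ext x
    change sc (c * x + s * y - t) (c * x - s * y - t) ↔
      (c * x - t - |s * y| < 0 ∧ 0 ≤ c * x - t + |s * y|)
    rw [← sc_iff]
    have a1 : c * x + s * y - t = c * x - t + s * y := by ring
    have a2 : c * x - s * y - t = c * x - t - s * y := by ring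
    rw [a1, a2]
  have e2 : (fun x : ℝ => (x, y)) ⁻¹'
      {p : ℝ × ℝ | sc (c * p.1 + s * p.2) (c * p.1 - s * p.2)} =
      {x : ℝ | c * x - |s * y| < 0 ∧ 0 ≤ c * x + |s * y|} := by
    ext x
    change sc (c * x + s * y) (c * x - s * y) ↔ (c * x - |s * y| < 0 ∧ 0 ≤ c * x + |s * y|)
    rw [← sc_iff]
  beta_reduce
  rw [e1, e2]
  exact h

end Pool.Agent.W243.RS.GA3
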